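import Pool.Agent.Helper600.ConradCentre

/-!
# A pair violating the Conrad condition is dominated by a central element
-/

set_option autoImplicit false

namespace Pool.Agent.Results.MP_7217b8_al.DominatingCentre

open Pool.Agent.Helper600.ConradCentre

universe u v

/-- Let `G` be a right orderable group (for instance an orderable group) all of whose right orders
are Conrad, and let `K` be a central extension of `G`: `Z` is a central subgroup of `K` and `K ⧸ Z`
is isomorphic to `G`.  If a pair `1 < f < g` violates the Conrad condition in some right order on
`K`, then some element of `Z` exceeds all powers of `g`.  In other words, a right order on `K`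
satisfies the Conrad condition for all pairs `f, g` such that no element of `Z` exceeds all powers
of `g`. -/
theorem result (G : Type v) [Group G] (hG : ∃ s : G → G → Prop, IsRightOrder s)
    (hC : EveryRightOrderConrad G) (K : Type u) [Group K] (Z : Subgroup K) [Z.Normal]
    (hZ : Z ≤ Subgroup.center K) (e : K ⧸ Z ≃* G) (r : K → K → Prop) (hr : IsRightOrder r)
    (f g : K) (hbad : ¬ ConradPair r f g) : ∃ z ∈ Z, ∀ n : ℕ, r (g ^ n) z :=
  part2 hr hbad G Z e hZ hG hC

end Pool.Agent.Results.MP_7217b8_al.DominatingCentre
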