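import Pool.Agent.Helper600.ConradCentre

/-!
# Central extensions of groups without free monoids on two generators
-/

set_option autoImplicit false

namespace Pool.Agent.Results.MP_7217b8_al.FreeMonoidModCentre

open Pool.Agent.Helper600.ConradCentre

universe u

/-- Let `K` be a group and `N` a normal subgroup contained in a term of the upper central series of
`K` (for instance a central subgroup).

(1) If a pair `1 < f < g` violates the Conrad condition in some right order on `K`, then `g` and
`g f⁻¹` freely generate a free monoid in `K ⧸ N`.

(2) Hence, if no two elements of `K ⧸ N` freely generate a free monoid, then every right order on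
`K` is a Conrad right order. -/
theorem result (K : Type u) [Group K] (n : ℕ) (N : Subgroup K) [N.Normal]
    (hN : N ≤ Subgroup.upperCentralSeries K n) :
    (∀ (r : K → K → Prop) (f g : K), IsRightOrder r → ¬ ConradPair r f g →
      FreelyGenerate (g : K ⧸ N) ((g * f⁻¹ : K) : K ⧸ N)) ∧
    ((∀ a b : K ⧸ N, ¬ FreelyGenerate a b) → EveryRightOrderConrad K) := by
  refine ⟨fun r f g hr hbad => part1 hr hbad n N hN, fun hfree r hr f g => ?_⟩
  by_contra hbad
  exact hfree _ _ (part1 hr hbad n N hN)

end Pool.Agent.Results.MP_7217b8_al.FreeMonoidModCentre
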