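import Pool.Agent.Helper277.IsoLoc
import Pool.Agent.Helper600.LCFactor

/-!
# Central extensions: pairs whose powers generate a group with a periodic lower central factor
-/

set_option autoImplicit false

namespace Pool.Agent.Results.MP_7217b8_al.PeriodicFactorPowers

universe u v

/-- `r` is a right order on `K` (strict total order, `f < g` implies `f h < g h`). -/
structure IsRightOrder {K : Type*} [Group K] (r : K → K → Prop) : Prop where
  irrefl : ∀ a, ¬ r a a
  trans : ∀ a b c, r a b → r b c → r a c
  total : ∀ a b, a ≠ b → r a b ∨ r b a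
  mul_right : ∀ f g h, r f g → r (f * h) (g * h)

/-- `r` is a total order on `K` invariant under multiplication on both sides. -/
structure IsBiOrder {K : Type*} [Group K] (r : K → K → Prop) : Prop extends IsRightOrder r where
  mul_left : ∀ f g h, r f g → r (h * f) (h * g)

/-- Every right order on `K` is a Conrad right order: `1 < f < g` implies `f g ^ m f⁻¹ > g` for some
positive integer `m`. -/
def EveryRightOrderConrad (K : Type*) [Group K] : Prop :=
  ∀ r : K → K → Prop, IsRightOrder r → ∀ f g : K, r 1 f → r f g →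
    ∃ m : ℕ, 0 < m ∧ r g (f * g ^ m * f⁻¹)

/-- The factor `γ_{n+1}(X) / γ_{n+2}(X)` of the lower central series is periodic (Mathlib's
`lowerCentralSeries` starts with `X` at the index `0`). -/
def PeriodicFactor (X : Type*) [Group X] (n : ℕ) : Prop :=
  ∀ x ∈ (⊤ : Subgroup X).lowerCentralSeries n,
    ∃ k : ℕ, 0 < k ∧ x ^ k ∈ (⊤ : Subgroup X).lowerCentralSeries (n + 1)

/-- `X` is soluble or has a periodic lower central factor. -/
def Tame (X : Type*) [Group X] : Prop :=
  Group.IsSolvable X ∨ ∃ n : ℕ, PeriodicFactor X n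

/-- Some positive powers of `f` and `g` generate a subgroup that is soluble or has a periodic lower
central factor. -/
def TamePowers {G : Type*} [Group G] (f g : G) : Prop :=
  ∃ k l : ℕ, 0 < k ∧ 0 < l ∧ Tame (Subgroup.closure {f ^ k, g ^ l} : Subgroup G)

open ConradSol Helper600

lemma rel_iff {K : Type*} [Group K] {r : K → K → Prop} (h : IsRightOrder r) (a b : K) :
    r a b ↔ r 1 (b * a⁻¹) := by
  constructor
  · intro h1
    have := h.mul_right _ _ a⁻¹ h1
    rwa [mul_inv_cancel] at this
  · intro h1
    have := h.mul_right _ _ a h1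
    rwa [one_mul, inv_mul_cancel_right] at this

lemma cone_of_rightOrder {K : Type*} [Group K] {r : K → K → Prop} (h : IsRightOrder r) :
    Cone {x : K | r 1 x} := by
  refine ⟨?_, h.irrefl 1, ?_⟩
  · intro x hx y hy
    have := h.mul_right _ _ y hx
    rw [one_mul] at this
    exact h.trans _ _ _ hy this
  · intro x hx
    rcases h.total 1 x (Ne.symm hx) with h1 | h1
    · exact Or.inl h1
    · right
      have := h.mul_right _ _ x⁻¹ h1
      rwa [mul_inv_cancel, one_mul] at this

lemma rightOrder_of_cone {K : Type*} [Group K] {P : Set K} (h : Cone P) :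
    IsRightOrder (fun a b : K => b * a⁻¹ ∈ P) := by
  refine ⟨?_, ?_, ?_, ?_⟩
  · intro a ha
    rw [mul_inv_cancel] at ha
    exact h.one_not_mem ha
  · intro a b c h1 h2
    have := h.mul_mem _ h2 _ h1
    rwa [show c * b⁻¹ * (b * a⁻¹) = c * a⁻¹ by group] at this
  · intro a b hab
    rcases h.total (b * a⁻¹) (fun h' => hab (mul_inv_eq_one.mp h').symm) with h1 | h1
    · exact Or.inl h1
    · right
      rwa [show a * b⁻¹ = (b * a⁻¹)⁻¹ by group]
  · intro f g k h1
    rwa [show g * k * (f * k)⁻¹ = g * f⁻¹ by group]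

lemma conrad_iff {K : Type*} [Group K] : EveryRightOrderConrad K ↔ AllConrad K := by
  constructor
  · intro h P hP f g hf hg
    obtain ⟨m, hm, h1⟩ := h _ (rightOrder_of_cone hP) f g (by simpa using hf) hg
    exact ⟨m, hm, h1⟩
  · intro h r hr f g hf hg
    obtain ⟨m, hm, h1⟩ := h _ (cone_of_rightOrder hr) f g hf ((rel_iff hr f g).mp hg)
    exact ⟨m, hm, (rel_iff hr _ _).mpr h1⟩

lemma orderable_of_biOrder {K : Type*} [Group K] (h : ∃ r : K → K → Prop, IsBiOrder r) :
    Orderable K := by
  obtain ⟨r, hr⟩ := h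
  refine ⟨{x | r 1 x}, ⟨cone_of_rightOrder hr.toIsRightOrder, ?_⟩⟩
  intro g x hx
  have h1 := hr.mul_right _ _ g⁻¹ (hr.mul_left _ _ g hx)
  rwa [mul_one, mul_inv_cancel] at h1

theorem lcs_bot {G : Type u} [Group G] (hOX : OX G) (X : Subgroup G) (hX : X.FG) (n : ℕ)
    (h : PeriodicFactor X n) : (⊤ : Subgroup X).lowerCentralSeries n = ⊥ := by
  obtain ⟨⟨P, hP⟩, hA⟩ := hOX
  have _ : Group.FG X := (Group.fg_iff_subgroup_fg X).mpr hX
  exact LCFactor.lowerCentralSeries_eq_bot
    (LCFactor.centralCone_subgroup (central_of_AllConrad hA hP) X) n h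

theorem nilpotent_of_tame {G : Type u} [Group G] (hOX : OX G) (X : Subgroup G) (hX : X.FG)
    (h : Tame X) : Group.IsNilpotent X := by
  rcases h with h | ⟨n, h⟩
  · exact fg_soluble_nilpotent hOX X hX h
  · exact Subgroup.nilpotent_iff_lowerCentralSeries.mpr ⟨n, lcs_bot hOX X hX n h⟩

theorem exists_isolator {G : Type u} [Group G] (hOX : OX G) (X : Subgroup G) (hX : X.FG)
    (h : Tame X) : ∃ L : Subgroup G, Group.IsNilpotent L ∧
      ∀ (x : G) (k : ℕ), 0 < k → x ^ k ∈ X → x ∈ L := by
  have hn := nilpotent_of_tame hOX X hX h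
  obtain ⟨L, hL1, hL2, hL3⟩ := exists_nilpotent_RC X G hOX X.subtype
  exact ⟨L, hL2, fun x k hk hx => hL1.isolated hk (hL3 ⟨⟨x ^ k, hx⟩, rfl⟩)⟩

/-- Let `G` be an orderable group, soluble or not, all of whose right orders are Conrad, and let `K`
be a central extension of `G` with projection `π : K → K ⧸ Z ≃* G`.

(1) If `f, g ∈ K` and some positive powers of `π f` and `π g` generate a subgroup of `G` that is
soluble or has a periodic lower central factor, then `f` and `g` generate a nilpotent subgroup of `K`,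
and the pair `f, g` satisfies the Conrad condition for every right order on `K`.

(2) If this holds for all pairs of elements of `G`, then every right order on `K` is Conrad. -/
theorem result (G : Type u) [Group G]
    (hG : ∃ r : G → G → Prop, IsBiOrder r) (hC : EveryRightOrderConrad G)
    (K : Type v) [Group K] (Z : Subgroup K) [Z.Normal] (hZ : Z ≤ Subgroup.center K)
    (e : K ⧸ Z ≃* G) :
    (∀ f g : K, TamePowers (e (f : K ⧸ Z)) (e (g : K ⧸ Z)) →
      Group.IsNilpotent (Subgroup.closure {f, g} : Subgroup K) ∧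
      ∀ r : K → K → Prop, IsRightOrder r → r 1 f → r f g →
        ∃ m : ℕ, 0 < m ∧ r g (f * g ^ m * f⁻¹)) ∧
    ((∀ f g : G, TamePowers f g) → EveryRightOrderConrad K) := by
  classical
  have hOX : OX G := ⟨orderable_of_biOrder hG, conrad_iff.mp hC⟩
  let π : K →* G := (e : K ⧸ Z →* G).comp (QuotientGroup.mk' Z)
  have hker : π.ker ≤ Subgroup.center K := by
    intro x hx
    apply hZ
    rw [← QuotientGroup.eq_one_iff]
    have h1 : e (x : K ⧸ Z) = 1 := hx
    rwa [map_eq_one_iff e e.injective] at h1
  have key : ∀ f g : K, TamePowers (e (f : K ⧸ Z)) (e (g : K ⧸ Z)) →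
      Group.IsNilpotent (Subgroup.closure {f, g} : Subgroup K) := by
    rintro f g ⟨k, l, hk, hl, h⟩
    obtain ⟨L, hL, hLp⟩ := exists_isolator hOX (Subgroup.closure {(π f) ^ k, (π g) ^ l})
      ⟨{(π f) ^ k, (π g) ^ l}, by simp⟩ h
    have hf : π f ∈ L := hLp _ k hk (Subgroup.subset_closure (by simp))
    have hg : π g ∈ L := hLp _ l hl (Subgroup.subset_closure (by simp))
    have hle : (Subgroup.closure {f, g} : Subgroup K).map π ≤ L := by
      rw [MonoidHom.map_closure, Set.image_pair, Subgroup.closure_le]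
      rintro x (rfl | rfl)
      · exact hf
      · exact hg
    have h1 : Group.IsNilpotent ((Subgroup.closure {f, g} : Subgroup K).map π) := by
      refine Subgroup.isNilpotent_of_ker_le_center (Subgroup.inclusion hle) ?_
      intro x hx
      have h1 : x = 1 := Subgroup.inclusion_injective hle (by rw [map_one]; exact hx)
      rw [h1]
      exact one_mem _
    refine Subgroup.isNilpotent_of_ker_le_center
      (π.subgroupMap (Subgroup.closure {f, g} : Subgroup K)) ?_
    intro x hx
    have h2 : π (x : K) = 1 := congrArg Subtype.val hx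
    have h3 := hker h2
    rw [Subgroup.mem_center_iff] at h3 ⊢
    intro y
    exact Subtype.ext (h3 y)
  have h2 : ∀ f g : K, Group.IsNilpotent (Subgroup.closure {f, g} : Subgroup K) →
      ∀ r : K → K → Prop, IsRightOrder r → r 1 f → r f g →
        ∃ m : ℕ, 0 < m ∧ r g (f * g ^ m * f⁻¹) := by
    intro f g hn r hr hf hg
    obtain ⟨m, hm, h1⟩ := conrad_pair (cone_of_rightOrder hr) f g hn hf ((rel_iff hr f g).mp hg)
    exact ⟨m, hm, (rel_iff hr _ _).mpr h1⟩
  exact ⟨fun f g h => ⟨key f g h, h2 f g (key f g h)⟩,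
    fun h r hr f g hf hg => h2 f g (key f g (h _ _)) r hr hf hg⟩

/-- Sanity check: the hypotheses are satisfied by the infinite cyclic group. -/
theorem hypotheses_int : (∃ r : Multiplicative ℤ → Multiplicative ℤ → Prop, IsBiOrder r) ∧
    EveryRightOrderConrad (Multiplicative ℤ) := by
  constructor
  · refine ⟨(· < ·), ⟨⟨lt_irrefl, fun a b c => lt_trans, fun a b h => lt_or_gt_of_ne h, ?_⟩, ?_⟩⟩
    · intro f g h hfg
      exact mul_lt_mul_left hfg h
    · intro f g h hfg
      exact mul_lt_mul_right hfg h
  · rw [conrad_iff]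
    intro P hP
    exact conrad_of_nilpotent hP (fun f g => inferInstance)

end Pool.Agent.Results.MP_7217b8_al.PeriodicFactorPowers
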